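import Pool.Agent.H93.TN.TargetsB

/-! WSL: convolutions and slabs. -/

set_option autoImplicit false

namespace Pool.Agent.H16.TN

open MeasureTheory Set
open Pool.Agent.H93.TN Pool.Agent.H93.AR
open Pool.Agent.H83.LS Pool.Agent.H54.LS Pool.Agent.H14.LS Pool.Agent.H83.AR
open scoped ENNReal NNReal

/-- The inequality of Hoelder with a weight `w ≥ 1`, `w < ∞`. -/
theorem wsl_holder {α : Type*} [MeasurableSpace α] (μ : Measure α) (q : ℝ) (hq : 1 ≤ q)
    (k w u : α → ℝ≥0∞) (hk : Measurable k) (hw : Measurable w) (hu : Measurable u)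
    (hw1 : ∀ z, w z ≠ 0) (hw2 : ∀ z, w z ≠ ⊤) :
    (∫⁻ z, k z * u z ∂μ) ^ q ≤
      (∫⁻ z, k z * w z ∂μ) ^ (q - 1) * ∫⁻ z, k z * w z ^ (1 - q) * u z ^ q ∂μ := by
  rcases eq_or_lt_of_le hq with h1 | h1
  · subst h1
    simp
  · have hq0 : 0 < q := by linarith
    have hpq : (q / (q - 1)).HolderConjugate q := by
      have := Real.HolderConjugate.conjExponent h1
      exact this.symm
    set p : ℝ := q / (q - 1) with hp
    have hq1 : 0 < q - 1 := by linarith
    have hp0 : 0 < p := by positivity
    have hinv : 1 / p + 1 / q = 1 := by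
      rw [hp]; field_simp; ring
    have hqp : q / p = q - 1 := by rw [hp]; field_simp
    have key := ENNReal.lintegral_mul_le_Lp_mul_Lq μ hpq
      (f := fun z => (k z * w z) ^ (1 / p)) (g := fun z => k z ^ (1 / q) * w z ^ (-(1 / p)) * u z)
      ((hk.mul hw).pow_const _).aemeasurable
      (((hk.pow_const _).mul (hw.pow_const _)).mul hu).aemeasurable
    have e1 : ∀ z, ((fun z => (k z * w z) ^ (1 / p)) *
        fun z => k z ^ (1 / q) * w z ^ (-(1 / p)) * u z) z = k z * u z := by
      intro z
      simp only [Pi.mul_apply]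
      rw [ENNReal.mul_rpow_of_nonneg _ _ (by positivity)]
      have h2 : k z ^ (1 / p) * k z ^ (1 / q) = k z := by
        rw [← ENNReal.rpow_add_of_nonneg _ _ (by positivity) (by positivity), hinv,
          ENNReal.rpow_one]
      have h3 : w z ^ (1 / p) * w z ^ (-(1 / p)) = 1 := by
        rw [← ENNReal.rpow_add _ _ (hw1 z) (hw2 z)]
        simp
      calc k z ^ (1 / p) * w z ^ (1 / p) * (k z ^ (1 / q) * w z ^ (-(1 / p)) * u z)
          = (k z ^ (1 / p) * k z ^ (1 / q)) * (w z ^ (1 / p) * w z ^ (-(1 / p))) * u z := by ring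
        _ = k z * u z := by rw [h2, h3, mul_one]
    have e2 : ∀ z, ((k z * w z) ^ (1 / p)) ^ p = k z * w z := by
      intro z
      rw [← ENNReal.rpow_mul]
      field_simp
      simp
    have e3 : ∀ z, (k z ^ (1 / q) * w z ^ (-(1 / p)) * u z) ^ q =
        k z * w z ^ (1 - q) * u z ^ q := by
      intro z
      rw [ENNReal.mul_rpow_of_nonneg _ _ hq0.le, ENNReal.mul_rpow_of_nonneg _ _ hq0.le,
        ← ENNReal.rpow_mul, ← ENNReal.rpow_mul]
      have h4 : 1 / q * q = 1 := by field_simp
      have h5 : -(1 / p) * q = 1 - q := by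
        have : -(1 / p) * q = -(q / p) := by ring
        rw [this, hqp]; ring
      rw [h4, h5, ENNReal.rpow_one]
    simp only [e1, e2, e3] at key
    have h6 := ENNReal.rpow_le_rpow key hq0.le
    refine h6.trans (le_of_eq ?_)
    rw [ENNReal.mul_rpow_of_nonneg _ _ hq0.le, ← ENNReal.rpow_mul, ← ENNReal.rpow_mul]
    have h7 : 1 / p * q = q - 1 := by rw [← hqp]; ring
    have h8 : 1 / q * q = 1 := by field_simp
    rw [h7, h8, ENNReal.rpow_one]

theorem pf_wsl : T_WSL := by
  intro d q γ Lam l k U V G hq hγ hγq hLam hl hlsub hk hU hV hG σ hσ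
  have hσ0 : 0 < σ := lt_of_lt_of_le (by positivity) hσ
  set w : EE d → ℝ≥0∞ := fun z => ENNReal.ofReal (1 + Lam * |l z|) with hwdef
  have hwm : Measurable w := by
    apply Measurable.ennreal_ofReal
    exact (continuous_const.add (continuous_const.mul hl.abs)).measurable
  have hpos : ∀ z, 0 < 1 + Lam * |l z| := fun z => by positivity
  have hw1 : ∀ z, w z ≠ 0 := fun z => by
    simp only [hwdef, ne_eq, ENNReal.ofReal_eq_zero, not_le]; exact hpos z
  have hw2 : ∀ z, w z ≠ ⊤ := fun z => ENNReal.ofReal_ne_top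
  have hw3 : ∀ z, 1 ≤ w z := fun z => by
    simp only [hwdef, ENNReal.one_le_ofReal]
    have : 0 ≤ Lam * |l z| := by positivity
    linarith
  set I : ℝ≥0∞ := ∫⁻ z, k z * w z with hI
  have hUx : ∀ (t : ℝ) (x : EE d), Measurable fun z => U t (x - z) := fun t x =>
    hU.comp (measurable_const.prodMk (measurable_const.sub measurable_id))
  -- pointwise bound
  have hpt : ∀ t ∈ Icc (1 : ℝ) 2, ∀ x, V t x ^ q ≤
      I ^ (q - 1) * ∫⁻ z, k z * w z ^ (1 - q) * U t (x - z) ^ q := by
    intro t ht x
    refine (ENNReal.rpow_le_rpow (hV t ht x) (by linarith)).trans ?_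
    exact wsl_holder volume q hq k w (fun z => U t (x - z)) hk hwm (hUx t x) hw1 hw2
  set S : Set (EE d) := {x | |l x| ≤ σ} with hS
  have hlm : ∀ s : ℝ, MeasurableSet {x : EE d | |l x| ≤ s} := fun s =>
    (isClosed_le hl.abs continuous_const).measurableSet
  have hSm : MeasurableSet S := hlm σ
  -- the function of three variables
  have hF : Measurable fun p : (ℝ × EE d) × EE d =>
      k p.2 * w p.2 ^ (1 - q) * U p.1.1 (p.1.2 - p.2) ^ q := by
    apply Measurable.mul
    · exact (hk.comp measurable_snd).mul ((hwm.comp measurable_snd).pow_const _)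
    · apply Measurable.pow_const
      exact hU.comp ((measurable_fst.comp measurable_fst).prodMk
        ((measurable_snd.comp measurable_fst).sub measurable_snd))
  have hF2 : Measurable fun p : (ℝ × EE d) × EE d =>
      k p.1.2 * w p.1.2 ^ (1 - q) * U p.1.1 (p.2 - p.1.2) ^ q := by
    apply Measurable.mul
    · exact (hk.comp (measurable_snd.comp measurable_fst)).mul
        ((hwm.comp (measurable_snd.comp measurable_fst)).pow_const _)
    · apply Measurable.pow_const
      exact hU.comp ((measurable_fst.comp measurable_fst).prodMk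
        (measurable_snd.sub (measurable_snd.comp measurable_fst)))
  have hFz : ∀ t : ℝ, Measurable fun p : EE d × EE d =>
      k p.2 * w p.2 ^ (1 - q) * U t (p.1 - p.2) ^ q := fun t =>
    hF.comp ((measurable_const.prodMk measurable_fst).prodMk measurable_snd)
  have hJ : Measurable fun p : ℝ × EE d => ∫⁻ z, k z * w z ^ (1 - q) * U p.1 (p.2 - z) ^ q :=
    Measurable.lintegral_prod_right' hF
  calc ∫⁻ t in Icc (1 : ℝ) 2, ∫⁻ x in S, V t x ^ q
      ≤ ∫⁻ t in Icc (1 : ℝ) 2, ∫⁻ x in S, I ^ (q - 1) *
          ∫⁻ z, k z * w z ^ (1 - q) * U t (x - z) ^ q := by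
        refine setLIntegral_mono' measurableSet_Icc fun t ht => ?_
        exact lintegral_mono fun x => hpt t ht x
    _ = I ^ (q - 1) * ∫⁻ t in Icc (1 : ℝ) 2, ∫⁻ x in S,
          ∫⁻ z, k z * w z ^ (1 - q) * U t (x - z) ^ q := by
        rw [← lintegral_const_mul _ (Measurable.lintegral_prod_right' (ν := volume.restrict S) hJ)]
        refine lintegral_congr fun t => ?_
        have hJt : Measurable fun x : EE d =>
            ∫⁻ z, k z * w z ^ (1 - q) * U t (x - z) ^ q :=
          hJ.comp (measurable_const.prodMk measurable_id)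
        exact lintegral_const_mul _ hJt
    _ = I ^ (q - 1) * ∫⁻ t in Icc (1 : ℝ) 2, ∫⁻ z, ∫⁻ x in S,
          k z * w z ^ (1 - q) * U t (x - z) ^ q := by
        congr 1
        refine lintegral_congr fun t => ?_
        exact lintegral_lintegral_swap (hFz t).aemeasurable
    _ = I ^ (q - 1) * ∫⁻ z, ∫⁻ t in Icc (1 : ℝ) 2, ∫⁻ x in S,
          k z * w z ^ (1 - q) * U t (x - z) ^ q := by
        congr 1
        exact lintegral_lintegral_swap
          (Measurable.lintegral_prod_right' (ν := volume.restrict S) hF2).aemeasurable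
    _ ≤ I ^ (q - 1) * ∫⁻ z, G * ENNReal.ofReal (σ ^ γ) * (k z * w z) := by
        gcongr with z
        have hUz : Measurable fun p : ℝ × EE d => U p.1 (p.2 - z) ^ q :=
          (hU.comp (measurable_fst.prodMk (measurable_snd.sub measurable_const))).pow_const _
        have e1 : ∫⁻ t in Icc (1 : ℝ) 2, ∫⁻ x in S, k z * w z ^ (1 - q) * U t (x - z) ^ q =
            k z * w z ^ (1 - q) * ∫⁻ t in Icc (1 : ℝ) 2, ∫⁻ x in S, U t (x - z) ^ q := by
          rw [← lintegral_const_mul _ (Measurable.lintegral_prod_right' (ν := volume.restrict S)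
            hUz)]
          refine lintegral_congr fun t => ?_
          have hUt : Measurable fun x : EE d => U t (x - z) ^ q :=
            hUz.comp (measurable_const.prodMk measurable_id)
          exact lintegral_const_mul _ hUt
        rw [e1]
        have e2 : ∫⁻ t in Icc (1 : ℝ) 2, ∫⁻ x in S, U t (x - z) ^ q ≤
            G * ENNReal.ofReal ((σ + |l z|) ^ γ) := by
          refine le_trans (lintegral_mono fun t => ?_)
            (hG (σ + |l z|) (le_trans hσ (by linarith [abs_nonneg (l z)])))
          rw [← lintegral_indicator hSm, ← lintegral_indicator (hlm _)]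
          rw [← lintegral_sub_right_eq_self
            (Set.indicator {x | |l x| ≤ σ + |l z|} fun x => U t x ^ q) z]
          refine lintegral_mono fun x => ?_
          by_cases hx : x ∈ S
          · have hx' : x - z ∈ {x : EE d | |l x| ≤ σ + |l z|} := by
              show |l (x - z)| ≤ σ + |l z|
              rw [hlsub]
              have h1 : |l x| ≤ σ := hx
              have h2 := abs_sub (l x) (l z)
              linarith
            rw [Set.indicator_of_mem hx, Set.indicator_of_mem hx']
          · rw [Set.indicator_of_notMem hx]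
            exact zero_le
        have e3 : ENNReal.ofReal ((σ + |l z|) ^ γ) ≤ ENNReal.ofReal (σ ^ γ) * w z ^ γ := by
          have h1 : w z ^ γ = ENNReal.ofReal ((1 + Lam * |l z|) ^ γ) := by
            simp only [hwdef]
            exact ENNReal.ofReal_rpow_of_pos (hpos z)
          rw [h1, ← ENNReal.ofReal_mul (by positivity)]
          apply ENNReal.ofReal_le_ofReal
          rw [← Real.mul_rpow hσ0.le (hpos z).le]
          apply Real.rpow_le_rpow (by positivity) _ hγ
          have h2 : 1 ≤ Lam * σ := by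
            rw [div_le_iff₀ hLam] at hσ
            linarith
          have h3 : |l z| ≤ (Lam * σ) * |l z| := by
            nlinarith [abs_nonneg (l z)]
          nlinarith
        have e4 : w z ^ (1 - q) * w z ^ γ ≤ w z := by
          rw [← ENNReal.rpow_add _ _ (hw1 z) (hw2 z)]
          calc w z ^ (1 - q + γ) ≤ w z ^ (1 : ℝ) :=
                ENNReal.rpow_le_rpow_of_exponent_le (hw3 z) (by linarith)
            _ = w z := ENNReal.rpow_one _
        calc k z * w z ^ (1 - q) * ∫⁻ t in Icc (1 : ℝ) 2, ∫⁻ x in S, U t (x - z) ^ q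
            ≤ k z * w z ^ (1 - q) * (G * (ENNReal.ofReal (σ ^ γ) * w z ^ γ)) := by
              gcongr
              exact e2.trans (by gcongr)
          _ = G * ENNReal.ofReal (σ ^ γ) * (k z * (w z ^ (1 - q) * w z ^ γ)) := by ring
          _ ≤ G * ENNReal.ofReal (σ ^ γ) * (k z * w z) := by gcongr
    _ = I ^ (q - 1) * (G * ENNReal.ofReal (σ ^ γ) * I) := by
        have hkw : Measurable fun z => k z * w z := hk.mul hwm
        rw [lintegral_const_mul _ hkw]
    _ = G * ENNReal.ofReal (σ ^ γ) * I ^ q := by
        have : I ^ q = I ^ (q - 1) * I := by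
          conv_lhs => rw [show q = (q - 1) + 1 by ring]
          rw [ENNReal.rpow_add_of_nonneg _ _ (by linarith) (by norm_num), ENNReal.rpow_one]
        rw [this]
        ring

end Pool.Agent.H16.TN
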